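import Mathlib
import Pool.Agent.W245.MixedTuples

/-!
# Logarithms and powers of almost all tuples of integers, over arbitrary coefficient spaces

Let `β_ij`, `i ≤ k`, `j ≤ m`, be arbitrary complex numbers such that for each `i` the numbers
`1, β_i1, ..., β_im` are linearly independent over `ℚ`, and let `W` be any finite dimensional space
of complex numbers over the algebraic numbers.  For almost all `k`-tuples `(n_1, ..., n_k)` of
positive integers the `k (m + 1)` numbers `log n_i`, `n_i ^ β_ij` satisfy no nontrivial polynomial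
relation of degree `≤ D` in each variable with coefficients in `W`; the bound is uniform in `β` and
depends on `W` only through its dimension.

For `m = 0` this is about logarithms alone: no hypothesis on `W` is needed, it may for example be
spanned by monomials in `log 2`, `log 3`, `π`, `e`, `ζ(3)`.

The proof: Baker's theorem and the strong six exponentials theorem (starting modules
`Pool.Agent.H297R2`, `Pool.Agent.H301R2.SSE`), evaluation determinants over `W` in one additive and
`m` multiplicative variables (`MixedCube`), a nonvanishing theorem for sums of characters with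
polynomial coefficients on cubes (`Mixed`), and multiplicative cubes in dense sets of integers.
-/

namespace Pool.Agent.Results.MP_60829e_nt.AlmostAllLogsAndPowers

open Module

/-- The numbers `log (n i)` and `(n i) ^ (β i j)` satisfy a nontrivial polynomial relation, of degree
at most `D` in each variable, with coefficients in `W`. -/
def HasRelation (D : ℕ) (W : Submodule (algebraicClosure ℚ ℂ) ℂ) {k m : ℕ}
    (β : Fin k → Fin m → ℂ) (n : Fin k → ℕ) : Prop :=
  ∃ Q : MvPolynomial (Fin k ⊕ Fin k × Fin m) ℂ, Q ≠ 0 ∧ (∀ i, Q.degreeOf i ≤ D) ∧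
    (∀ s, Q.coeff s ∈ W) ∧
    MvPolynomial.eval (Sum.elim (fun i => (Real.log (n i) : ℂ))
      (fun p => (n p.1 : ℂ) ^ (β p.1 p.2))) Q = 0

open Classical in
/-- **Main result.** -/
theorem result (k m D N : ℕ) (ε : ℝ) (hε : 0 < ε) :
    ∃ x₀ : ℕ, ∀ x ≥ x₀, ∀ β : Fin k → Fin m → ℂ,
      (∀ i, LinearIndependent ℚ (Fin.cons 1 (β i) : Fin (m + 1) → ℂ)) →
      ∀ W : Submodule (algebraicClosure ℚ ℂ) ℂ, Module.Finite (algebraicClosure ℚ ℂ) W →
        finrank (algebraicClosure ℚ ℂ) W ≤ N →
        (((Fintype.piFinset fun _ : Fin k => Finset.Icc 1 x).filter fun n =>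
          HasRelation D W β n).card : ℝ) ≤ ε * (x : ℝ) ^ k := by
  obtain ⟨x₀, hx₀⟩ := Pool.Agent.W245.density_mixed_tuples m D k N ε hε
  refine ⟨x₀, fun x hx β hβ W hWf hWN => ?_⟩
  refine le_trans ?_ (hx₀ x hx β hβ W hWf hWN)
  apply Nat.cast_le.2
  apply Finset.card_le_card
  intro n hn
  rw [Finset.mem_filter] at hn ⊢
  obtain ⟨hn1, Q, hQ0, hQD, hQW, hQ⟩ := hn
  refine ⟨hn1, fun hI => hQ0 ?_⟩
  have hpos : ∀ i, 0 < n i := by
    intro i
    have := (Fintype.mem_piFinset.1 hn1) i
    rw [Finset.mem_Icc] at this
    omega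
  refine Pool.Agent.W245.poly_of_indepT (fun i => (Real.log (n i) : ℂ))
    (fun i l => Complex.exp (β i l * (Real.log (n i) : ℂ))) hI Q hQD hQW ?_
  rw [← hQ]
  congr 2
  funext s
  rcases s with i | p
  · rfl
  · have h0 : ((n p.1 : ℕ) : ℂ) ≠ 0 := by exact_mod_cast (hpos p.1).ne'
    simp only [Sum.elim_inr]
    rw [Complex.cpow_def_of_ne_zero h0, mul_comm, Complex.natCast_log]

end Pool.Agent.Results.MP_60829e_nt.AlmostAllLogsAndPowers
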