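import Pool.Agent.W256.Curve6

/-!
# Logarithms in a field of transcendence degree one have large degrees

Let `F ⊆ ℂ` be a field containing the algebraic numbers `ℚ̄`, and let `x_1, ..., x_N ∈ F` be linear
forms in `1` and logarithms of algebraic numbers such that `1, x_1, ..., x_N` are linearly
independent over `ℚ̄` (for example, by the theorem of Baker, logarithms of algebraic numbers which
are linearly independent over `ℚ`). If `F` is a finite extension of `ℚ̄(x_i)` for all `i`, then

`∑ [F : ℚ̄(x_i)] ≥ ⌊(N + 1) ^ 2 / 4⌋`.

Hence in a field of transcendence degree one over `ℚ̄` there are at most `4 D - 2` linearly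
independent logarithms (modulo constants) of degree at most `D`.

The proof: by the growth of the spaces `V ^ m`, `V` the span of `1` and the `x_i` (see
`ProductGrowth`), the curve with generic point `(x_1, ..., x_N)` has degree at least
`⌊(N + 1) ^ 2 / 4⌋`. A generic linear combination `g` of the `x_i` bounds all of them
(`Curve3`), functions bounded by `g ^ m` have at most `m [F : ℚ̄(g)]` zeros (`Curve1`), and degrees
are subadditive (`Curve4`).
-/

set_option autoImplicit false

namespace Pool.Agent.Results.MP_60829e_nt.FieldDegrees

/-- The space of all linear combinations, with algebraic coefficients, of `1` and of logarithms of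
algebraic numbers. -/
noncomputable def LinForms : Submodule (algebraicClosure ℚ ℂ) ℂ :=
  Submodule.span (algebraicClosure ℚ ℂ) ({1} ∪ {z : ℂ | IsAlgebraic ℚ (Complex.exp z)})

/-- **Main result.** -/
theorem result (F : IntermediateField (algebraicClosure ℚ ℂ) ℂ) (N : ℕ) (x : Fin N → F)
    (hx : ∀ i, (x i : ℂ) ∈ LinForms)
    (hli : LinearIndependent (algebraicClosure ℚ ℂ) (Fin.cons 1 x : Fin (N + 1) → F))
    (hfin : ∀ i, FiniteDimensional
      (IntermediateField.adjoin (algebraicClosure ℚ ℂ) {x i}) F) :
    (N + 1) ^ 2 / 4 ≤
      ∑ i, Module.finrank (IntermediateField.adjoin (algebraicClosure ℚ ℂ) {x i}) F :=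
  Pool.Agent.W256.degrees_of_forms F N x hx hli hfin

end Pool.Agent.Results.MP_60829e_nt.FieldDegrees
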