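import Pool.Agent.W254.HP.Fixed

/-!
# A fixed logarithm and linear forms in other logarithms

Let `l₀` and `l_i`, `i ∈ ι`, be logarithms of algebraic numbers which are linearly independent over
`ℚ`; the family may be infinite (for example `l₀ = π i` and the logarithms of all primes).  For every
`D ≥ 1` there is a set `E` of at most `4D - 4` indices (at most one index if `D = 1`) such that `l₀`
and the `l_i`, `i ∉ E`, satisfy no nonzero polynomial relation with algebraic coefficients which has
degree at most `D` in `l₀` and total degree at most one in the `l_i`.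

Proof.  The hyperplane case of the linear subgroup theorem (Waldschmidt, Roy), derived here from
the obstruction theorem `Pool.Agent.H335R2.Obs.obstruction_of`, bounds the dimension of the space of
relations `∑ x_u a_u = 0`, `a_u` linear forms in `1` and logarithms, by `d (d - 1)` for `d` numbers
`x_u` which are linearly independent over the algebraic numbers.  This is applied to the powers
`x_u = l₀ ^ u`, `u < 2D`.  If the relations of degree at most `D` have rank `r`, their products with
`l₀ ^ k`, `k < D`, together with the `2D - 1` relations `l₀ ^ (u + 1) * 1 - l₀ ^ u * l₀ = 0` give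
`r D + 2D - 1 ≤ 2D (2D - 1)`.
-/

set_option autoImplicit false

namespace Pool.Agent.Results.MP_60829e_nt.FixedLogarithm

/-- **Main result.** -/
theorem result (D : ℕ) (hD : 1 ≤ D) (ι : Type) (l₀ : ℂ) (l : ι → ℂ)
    (hl₀ : IsAlgebraic ℚ (Complex.exp l₀)) (hl : ∀ i, IsAlgebraic ℚ (Complex.exp (l i)))
    (hli : LinearIndependent ℚ (fun o : Option ι => (o.elim l₀ l : ℂ))) :
    ∃ E : Finset ι, E.card ≤ max 1 (4 * D - 4) ∧
      ∀ P : MvPolynomial (Option ι) (algebraicClosure ℚ ℂ),
        (∀ m ∈ P.support, m none ≤ D ∧ ((∀ s, m (some s) = 0) ∨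
          ∃ s, s ∉ E ∧ m (some s) = 1 ∧ ∀ s', s' ≠ s → m (some s') = 0)) →
        MvPolynomial.aeval (fun o : Option ι => (o.elim l₀ l : ℂ)) P = 0 → P = 0 :=
  Pool.Agent.W254.HP.fixed_log D hD l₀ l hl₀ hl hli

end Pool.Agent.Results.MP_60829e_nt.FixedLogarithm
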