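import Pool.Agent.W256.Growth
import Pool.Agent.W254.HP.Prod

/-!
# Multiplication by logarithms: quadratic growth of dimensions

Let `V ≠ 0` be a finite dimensional space of linear forms in `1` and logarithms of algebraic numbers
(with algebraic coefficients) and `X` an arbitrary finite dimensional space of complex numbers, over
the field of algebraic numbers. Then `dim (X V) ≥ dim X + s (dim V - s)` for all `s ≤ dim X`.

For `V` spanned by `1` and `N` logarithms which are linearly independent over `ℚ`, and `X = V ^ m`,
this bounds the Hilbert function of the ideal of all polynomial relations between the logarithms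
from below: `H (m + 1) ≥ H m + ⌊(N + 1) ^ 2 / 4⌋` for all `m ≥ 1`. In particular such a point never
lies on an algebraic curve over the algebraic numbers of degree less than `⌊(N + 1) ^ 2 / 4⌋`.

The proof combines the case of a hyperplane in the linear subgroup theorem (strong form of D. Roy,
proved in `Pool.Agent.W254.HP`) with a choice of points of the variety of specialisations at which
most of `X` is killed.
-/

set_option autoImplicit false

namespace Pool.Agent.Results.MP_60829e_nt.ProductGrowth

open Module

/-- The space of all linear combinations, with algebraic coefficients, of `1` and of logarithms of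
algebraic numbers. -/
noncomputable def LinForms : Submodule (algebraicClosure ℚ ℂ) ℂ :=
  Submodule.span (algebraicClosure ℚ ℂ) ({1} ∪ {z : ℂ | IsAlgebraic ℚ (Complex.exp z)})

/-- **Main result.** -/
theorem result (V X : Submodule (algebraicClosure ℚ ℂ) ℂ)
    [FiniteDimensional (algebraicClosure ℚ ℂ) V] [FiniteDimensional (algebraicClosure ℚ ℂ) X]
    (hV : V ≤ LinForms) (hV0 : V ≠ ⊥) (s : ℕ) (hs : s ≤ finrank (algebraicClosure ℚ ℂ) X) :
    finrank (algebraicClosure ℚ ℂ) X + s * finrank (algebraicClosure ℚ ℂ) V ≤
      finrank (algebraicClosure ℚ ℂ) (X * V : Submodule (algebraicClosure ℚ ℂ) ℂ) + s * s := by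
  have : IsAlgClosed (algebraicClosure ℚ ℂ) := (algebraicClosure.isAlgClosure ℚ ℂ).isAlgClosed
  refine Pool.Agent.W256.growth_of X V hV0 s hs ?_
  intro Y hYX hYs
  have : FiniteDimensional (algebraicClosure ℚ ℂ) Y :=
    Submodule.finiteDimensional_of_le hYX
  have : FiniteDimensional (algebraicClosure ℚ ℂ)
      (Y * V : Submodule (algebraicClosure ℚ ℂ) ℂ) :=
    Module.Finite.iff_fg.mpr (Submodule.FG.mul (Module.Finite.iff_fg.mp inferInstance)
      (Module.Finite.iff_fg.mp inferInstance))
  have h := Pool.Agent.W254.HP.product_le Y V (Y * V) hV
    (fun x hx w hw => Submodule.mul_mem_mul hx hw)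
  rwa [hYs] at h

end Pool.Agent.Results.MP_60829e_nt.ProductGrowth
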